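import Pool.Agent.Lib.Forcing.Defs

/-!
The splitting number, the polarized relation, the bounding number and the covering number of the
meagre ideal, read inside a model `(M, E)` of set theory. `w` stands for `ω`, `v` for `ω₁`.
-/

set_option autoImplicit false

namespace Pool.Agent.MP_1d5a21_lc

open Pool.Agent.Lib.Forcing

variable {M : Type 1} (E : M → M → Prop)

/-- `X ⊆ Y`. -/
def Sub (X Y : M) : Prop := ∀ z, E z X → E z Y

/-- `|X| ≤ |Y|`. -/
def Leq (X Y : M) : Prop := Le E (fun x => E x X) (fun y => E y Y)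

/-- Infinitely many natural numbers have the property `P`. -/
def Inf (w : M) (P : M → Prop) : Prop := ∀ n, E n w → ∃ m, E m w ∧ E n m ∧ P m

/-- `v` is the least uncountable ordinal. -/
def Om1 (w v : M) : Prop :=
  (∀ a, E a v → Sub E a v) ∧ (∀ a b, E a v → E b v → E a b ∨ a = b ∨ E b a) ∧
    ¬ Leq E v w ∧ ∀ a, E a v → Leq E a w

/-- `F` is a splitting family. -/
def Spl (w F : M) : Prop :=
  (∀ S, E S F → Sub E S w) ∧ ∀ X, Sub E X w → Inf E w (fun m => E m X) →
    ∃ S, E S F ∧ Inf E w (fun m => E m X ∧ E m S) ∧ Inf E w (fun m => E m X ∧ ¬ E m S)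

/-- The polarized relation for `v × w` and two colours; `C` is the set of pairs of colour one. -/
def Pol (w v : M) : Prop :=
  ∀ C, ∃ A B, Sub E A v ∧ Sub E B w ∧ ¬ Leq E A w ∧ Inf E w (fun m => E m B) ∧
    ((∀ a n, E a A → E n B → Ap E C a n) ∨ ∀ a n, E a A → E n B → ¬ Ap E C a n)

/-- `f : ω → ω`. -/
def Fun (w f : M) : Prop := Fn E w (fun _ m => E m w) f

/-- Every family of functions `ω → ω` indexed by `K` is eventually dominated by one function. -/
def Bdd (w K : M) : Prop :=
  ∀ G, Fn E K (fun _ f => Fun E w f) G → ∃ d, Fun E w d ∧ ∀ k f, Ap E G k f →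
    ¬ Inf E w (fun n => ∃ m m', Ap E f n m ∧ Ap E d n m' ∧ ¬ E m m')

/-- For every family of functions `ω → ω` indexed by `K` one function agrees infinitely often
with each member. -/
def Ioe (w K : M) : Prop :=
  ∀ G, Fn E K (fun _ f => Fun E w f) G → ∃ c, Fun E w c ∧ ∀ k f, Ap E G k f →
    Inf E w (fun n => ∃ m, Ap E f n m ∧ Ap E c n m)

/-- `|K| ≥ ℵ_ω`: an `ω`-sequence of infinite subsets of `K` of strictly increasing sizes. -/
def Big (w K : M) : Prop :=
  ∃ h, Fn E w (fun _ y => Sub E y K ∧ Leq E w y) h ∧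
    ∀ n m x y, E n m → Ap E h n x → Ap E h m y → Lt E x y

end Pool.Agent.MP_1d5a21_lc
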